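import Pool.Agent.helper47.CL.SpecC

set_option autoImplicit false

namespace Pool.Agent.helper41.CL

open Finset

theorem YT_two (r : ℕ) (hr : 2 ≤ r) : #(SimpleGraph.turanGraph 2 r).edgeFinset = 1 := by
  rw [SimpleGraph.card_edgeFinset_turanGraph]
  rcases Nat.lt_or_ge 2 r with h | h
  · rw [Nat.mod_eq_of_lt h]
    simp
  · have : r = 2 := le_antisymm h hr
    subst this
    decide

theorem YT : YT_stmt := by
  intro r hr
  have h1 := SimpleGraph.card_edgeFinset_turanGraph_add (n := r + 2) (r := r)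
  have h2 := SimpleGraph.card_edgeFinset_turanGraph_add (n := 2) (r := r)
  rw [YT_two r hr] at h2
  have e1 : r + 2 + r = 2 * r + 2 := by ring
  have e2 : 2 + r = r + 2 := by ring
  rw [e1] at h1
  rw [e2] at h2
  have h3 : r.choose 2 * 2 = r * (r - 1) := by
    rw [Nat.choose_two_right, Nat.div_mul_cancel (Nat.even_mul_pred_self _).two_dvd]
  have h4 : (2 * r + 2).choose 2 * 2 = (2 * r + 2) * (2 * r + 1) := by
    rw [Nat.choose_two_right, Nat.div_mul_cancel (Nat.even_mul_pred_self _).two_dvd]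
    rfl
  obtain ⟨q, rfl⟩ : ∃ q, r = q + 1 := ⟨r - 1, by omega⟩
  simp only [Nat.add_sub_cancel] at h1 h2 h3
  rw [h2] at h1
  nlinarith

end Pool.Agent.helper41.CL
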